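import Mathlib

set_option autoImplicit false

open Finset

namespace Pool.Agent.P8H28.KC

variable {ι : Type} [Fintype ι] [DecidableEq ι]

/-- the number of words of length `N` and degree `k` -/
def cnt (deg : ι → ℕ) (N k : ℕ) : ℕ :=
  ((univ : Finset (Fin N → ι)).filter fun w => ∑ i, deg (w i) = k).card

theorem sum_upd (deg : ι → ℕ) {N : ℕ} (w : Fin N → ι) (p : Fin N) (x : ι) :
    ∑ i, deg (Function.update w p x i) + deg (w p) = ∑ i, deg (w i) + deg x := by
  rw [← Finset.add_sum_erase univ (fun i => deg (Function.update w p x i)) (mem_univ p),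
    ← Finset.add_sum_erase univ (fun i => deg (w i)) (mem_univ p)]
  have : ∑ i ∈ univ.erase p, deg (Function.update w p x i) = ∑ i ∈ univ.erase p, deg (w i) := by
    refine Finset.sum_congr rfl fun i hi => ?_
    rw [Function.update_of_ne (Finset.ne_of_mem_erase hi)]
  rw [this]
  simp only [Function.update_self]
  omega

theorem step (deg : ι → ℕ) {z h : ι} (hz : ∀ a, deg a = 0 → a = z) (hz0 : deg z = 0)
    (hh : deg h = 2) (N k : ℕ) :
    2 * ((N - k) * cnt deg N k) ≤ (k + 2) * cnt deg N (k + 2) := by
  have e1 : ∀ p : Fin N,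
      ((univ.filter fun w : Fin N → ι => ∑ i, deg (w i) = k).filter fun w => w p = z).card ≤
      ((univ.filter fun w : Fin N → ι => ∑ i, deg (w i) = k + 2).filter fun w => w p = h).card := by
    intro p
    refine Finset.card_le_card_of_injOn (fun w => Function.update w p h) ?_ ?_
    · intro w hw
      simp only [Finset.coe_filter, Finset.mem_filter, Finset.mem_univ, true_and,
        Set.mem_ofPred_eq] at hw ⊢
      refine ⟨?_, Function.update_self _ _ _⟩
      have := sum_upd deg w p h
      rw [hw.2, hz0, hh, hw.1] at this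
      omega
    · intro w hw w' hw' heq
      simp only [Finset.coe_filter, Finset.mem_filter, Finset.mem_univ, true_and,
        Set.mem_ofPred_eq] at hw hw'
      funext i
      by_cases hi : i = p
      · rw [hi, hw.2, hw'.2]
      · have := congrFun heq i
        simpa [Function.update_of_ne hi] using this
  have e2 : ∀ (P : Finset (Fin N → ι)) (x : ι),
      ∑ p : Fin N, (P.filter fun w => w p = x).card =
        ∑ w ∈ P, ((univ : Finset (Fin N)).filter fun p => w p = x).card := by
    intro P x
    simp only [Finset.card_filter]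
    exact Finset.sum_comm
  have e3 : (N - k) * cnt deg N k ≤
      ∑ p : Fin N, ((univ.filter fun w : Fin N → ι => ∑ i, deg (w i) = k).filter
        fun w => w p = z).card := by
    rw [e2, mul_comm]
    unfold cnt
    rw [← smul_eq_mul, ← Finset.sum_const]
    refine Finset.sum_le_sum fun w hw => ?_
    have hw' : ∑ i, deg (w i) = k := (Finset.mem_filter.mp hw).2
    have h1 : ((univ : Finset (Fin N)).filter fun p => ¬ w p = z).card ≤ k := by
      rw [← hw', Finset.card_eq_sum_ones]
      refine (Finset.sum_le_sum (g := fun i => deg (w i)) fun i hi => ?_).trans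
        (Finset.sum_le_sum_of_subset (Finset.subset_univ _))
      have h2 : ¬ w i = z := (Finset.mem_filter.mp hi).2
      have h3 : deg (w i) ≠ 0 := fun h => h2 (hz _ h)
      omega
    have h4 := Finset.card_filter_add_card_filter_not (s := (univ : Finset (Fin N)))
      (fun p => w p = z)
    rw [Finset.card_univ, Fintype.card_fin] at h4
    omega
  have e4 : 2 * ∑ p : Fin N, ((univ.filter fun w : Fin N → ι => ∑ i, deg (w i) = k + 2).filter
        fun w => w p = h).card ≤ (k + 2) * cnt deg N (k + 2) := by
    rw [e2, Finset.mul_sum, mul_comm (k + 2)]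
    unfold cnt
    rw [← smul_eq_mul (a := (filter (fun w : Fin N → ι => ∑ i, deg (w i) = k + 2) univ).card),
      ← Finset.sum_const]
    refine Finset.sum_le_sum fun w hw => ?_
    have hw' : ∑ i, deg (w i) = k + 2 := (Finset.mem_filter.mp hw).2
    rw [← hw', Finset.card_eq_sum_ones, Finset.mul_sum]
    refine (Finset.sum_le_sum (g := fun i => deg (w i)) fun i hi => ?_).trans
        (Finset.sum_le_sum_of_subset (Finset.subset_univ _))
    rw [(Finset.mem_filter.mp hi).2, hh, mul_one]
  calc 2 * ((N - k) * cnt deg N k) ≤ 2 * _ := Nat.mul_le_mul_left _ e3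
    _ ≤ 2 * _ := Nat.mul_le_mul_left _ (Finset.sum_le_sum fun p _ => e1 p)
    _ ≤ _ := e4

theorem cnt_lt (deg : ι → ℕ) {z h : ι} (hz : ∀ a, deg a = 0 → a = z) (hz0 : deg z = 0)
    (hh : deg h = 2) (N k : ℕ) (hk : 3 * k + 2 < 2 * N) (hp : 0 < cnt deg N k) :
    cnt deg N k < cnt deg N (k + 2) := by
  have h1 := step deg hz hz0 hh N k
  by_contra hc
  push Not at hc
  have h2 : (k + 2) * cnt deg N (k + 2) ≤ (k + 2) * cnt deg N k := Nat.mul_le_mul_left _ hc
  have h3 : (k + 2) * cnt deg N k < 2 * (N - k) * cnt deg N k :=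
    Nat.mul_lt_mul_of_pos_right (by omega) hp
  have h4 : 2 * (N - k) * cnt deg N k = 2 * ((N - k) * cnt deg N k) := by ring
  omega

/-- along one parity class the numbers are strictly increasing -/
theorem cnt_mono (deg : ι → ℕ) {z h : ι} (hz : ∀ a, deg a = 0 → a = z) (hz0 : deg z = 0)
    (hh : deg h = 2) (N k j : ℕ) (hp : 0 < cnt deg N k) (hj : 0 < j)
    (hk : 3 * (k + 2 * j) < 2 * N + 4) :
    cnt deg N k < cnt deg N (k + 2 * j) := by
  induction j with
  | zero => omega
  | succ j ih =>
    rcases Nat.eq_zero_or_pos j with h0 | h0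
    · subst h0
      exact cnt_lt deg hz hz0 hh N k (by omega) hp
    · have h1 := ih h0 (by omega)
      have h2 := cnt_lt deg hz hz0 hh N (k + 2 * j) (by omega) (by omega)
      have h3 : k + 2 * (j + 1) = k + 2 * j + 2 := by ring
      rw [h3]
      omega

theorem cnt_zero (deg : ι → ℕ) {z : ι} (hz0 : deg z = 0) (N : ℕ) : 0 < cnt deg N 0 := by
  refine Finset.card_pos.mpr ⟨fun _ => z, ?_⟩
  simp [hz0]

theorem cnt_one (deg : ι → ℕ) {z : ι} (hz0 : deg z = 0) (o : ι) (N : ℕ) :
    0 < cnt deg (N + 1) (deg o) := by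
  refine Finset.card_pos.mpr ⟨Function.update (fun _ => z) 0 o, ?_⟩
  refine Finset.mem_filter.mpr ⟨Finset.mem_univ _, ?_⟩
  have := sum_upd deg (fun _ : Fin (N + 1) => z) 0 o
  simp only [hz0, Finset.sum_const_zero] at this
  omega

end Pool.Agent.P8H28.KC
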