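import Pool.Agent.P8H28.KC.Cnt

set_option autoImplicit false

open Finset

namespace Pool.Agent.P8H28.KC

variable {ι : Type} [Fintype ι] [DecidableEq ι]

/-- the Künneth projector onto `H^m(X^n)` in the basis of `H(X^n) = H(X)^(⊗ n)` -/
def kunneth (K : Type) [Field K] (deg : ι → ℕ) (n m : ℕ) :
    Matrix (Fin n → ι) (Fin n → ι) K :=
  Matrix.diagonal fun w => if ∑ i, deg (w i) = m then 1 else 0

/-- the Künneth projector onto `H^i(X)` -/
def proj (K : Type) [Field K] (deg : ι → ℕ) (i : ℕ) : Matrix ι ι K :=
  Matrix.diagonal fun a => if deg a = i then 1 else 0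

/-- the (super-)trace over all factors but the first: the push-forward to `X × X` of the
intersection of a class on `X^(n+1) × X^(n+1)` with the diagonals of the last `n` pairs of
factors -/
def contract {K : Type} [Field K] (deg : ι → ℕ) (n : ℕ)
    (M : Matrix (Fin (n + 1) → ι) (Fin (n + 1) → ι) K) : Matrix ι ι K :=
  Matrix.of fun a b => ∑ w : Fin n → ι,
    (-1) ^ (∑ i, deg (w i)) * M (Fin.cons a w) (Fin.cons b w)

/-- the algebraic correspondences of degree zero on the powers of a smooth projective variety `X`
of dimension `e`, as matrices, for a Weil cohomology with coefficients in `K`; `ι` is a basis of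
`H(X)` consisting of elements of degrees `deg` -/
structure Cycles (K : Type) [Field K] [CharZero K] (ι : Type) [Fintype ι] [DecidableEq ι]
    (deg : ι → ℕ) (e : ℕ) where
  /-- on `X`: composition of correspondences, the diagonal -/
  alg : Subalgebra ℚ (Matrix ι ι K)
  /-- on `X^n` -/
  pow : (n : ℕ) → Submodule ℚ (Matrix (Fin n → ι) (Fin n → ι) K)
  tensor : ∀ (n : ℕ) (M : Fin n → Matrix ι ι K), (∀ i, M i ∈ alg) →
    (Matrix.of fun w w' : Fin n → ι => ∏ i, M i (w i) (w' i)) ∈ pow n
  contract_mem : ∀ (n : ℕ) (M : Matrix (Fin (n + 1) → ι) (Fin (n + 1) → ι) K),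
    M ∈ pow (n + 1) → contract deg n M ∈ alg
  /-- the transposed correspondence; the Künneth projectors of the degrees `i` and `2 e - i` are
  transposed to each other -/
  transpose : ∀ c : ℕ → ℚ, (Matrix.diagonal fun a => ((c (deg a) : ℚ) : K)) ∈ alg →
    (Matrix.diagonal fun a => ((c (2 * e - deg a) : ℚ) : K)) ∈ alg

theorem Cycles.dual {K : Type} [Field K] [CharZero K] {deg : ι → ℕ} {e : ℕ}
    (C : Cycles K ι deg e) (hD : ∀ a, deg a ≤ 2 * e) (i : ℕ) (hi : i ≤ 2 * e)
    (h : proj K deg i ∈ C.alg) : proj K deg (2 * e - i) ∈ C.alg := by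
  have h1 := C.transpose (fun j => if j = i then 1 else 0) (by
    refine (congrArg (· ∈ C.alg) ?_).mpr h
    unfold proj
    congr 1
    funext a
    by_cases ha : deg a = i <;> simp [ha])
  refine (congrArg (· ∈ C.alg) ?_).mpr h1
  unfold proj
  congr 1
  funext a
  have := hD a
  by_cases ha : deg a = 2 * e - i
  · rw [if_pos ha, if_pos (by omega)]; simp
  · rw [if_neg ha, if_neg (by omega)]; simp

/-- the numbers `c_i` -/
def cf (deg : ι → ℕ) (N m i : ℕ) : ℚ :=
  if i ≤ m then (-1) ^ (m - i) * (cnt deg N (m - i) : ℚ) else 0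

theorem contract_kunneth {K : Type} [Field K] [CharZero K] (deg : ι → ℕ) (N m : ℕ) :
    contract deg N (kunneth K deg (N + 1) m) =
      Matrix.diagonal fun a => ((cf deg N m (deg a) : ℚ) : K) := by
  ext a b
  simp only [contract, kunneth, Matrix.of_apply]
  by_cases hab : a = b
  · subst hab
    rw [Matrix.diagonal_apply_eq]
    simp only [Matrix.diagonal_apply_eq, Fin.sum_univ_succ, Fin.cons_zero, Fin.cons_succ]
    by_cases h : deg a ≤ m
    · rw [cf, if_pos h, cnt]
      have h1 : ∀ w : Fin N → ι, (-1 : K) ^ (∑ i, deg (w i)) *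
          (if deg a + ∑ i, deg (w i) = m then 1 else 0) =
          if ∑ i, deg (w i) = m - deg a then (-1 : K) ^ (m - deg a) else 0 := by
        intro w
        by_cases h2 : ∑ i, deg (w i) = m - deg a
        · rw [if_pos h2, if_pos (by omega), h2, mul_one]
        · rw [if_neg h2, if_neg (by omega), mul_zero]
      rw [Finset.sum_congr rfl fun w _ => h1 w, ← Finset.sum_filter, Finset.sum_const,
        nsmul_eq_mul]
      push_cast
      ring
    · rw [cf, if_neg h]
      rw [Finset.sum_eq_zero fun w _ => ?_]
      · simp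
      · rw [if_neg (by omega), mul_zero]
  · rw [Matrix.diagonal_apply_ne _ hab]
    refine Finset.sum_eq_zero fun w _ => ?_
    rw [Matrix.diagonal_apply_ne, mul_zero]
    intro h
    exact hab (by simpa using congrFun h 0)

/-- separation: if the numbers `f a`, for `deg a` different, are different, then the projectors
are in the algebra -/
theorem separate {K : Type} [Field K] [CharZero K] (deg : ι → ℕ) (A : Subalgebra ℚ (Matrix ι ι K))
    (c : ℕ → ℚ) (hA : (Matrix.diagonal fun a => ((c (deg a) : ℚ) : K)) ∈ A)
    (i : ℕ) (hc : ∀ a b, deg a = i → c (deg a) = c (deg b) → deg a = deg b) :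
    proj K deg i ∈ A := by
  classical
  by_cases hi : ∃ a, deg a = i
  · obtain ⟨a0, ha0⟩ := hi
    let B : Subalgebra ℚ (ι → K) := A.comap (Matrix.diagonalAlgHom ℚ)
    have hf : (fun a => ((c (deg a) : ℚ) : K)) ∈ B := hA
    have hmem : (∏ j ∈ (univ.image deg).erase i,
        ((fun a => ((c (deg a) : ℚ) : K)) - algebraMap ℚ (ι → K) (c j)) *
          algebraMap ℚ (ι → K) ((c i - c j)⁻¹)) ∈ B := by
      refine Subalgebra.prod_mem _ fun j _ => ?_
      exact B.mul_mem (B.sub_mem hf (B.algebraMap_mem _)) (B.algebraMap_mem _)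
    have heq : (∏ j ∈ (univ.image deg).erase i,
        ((fun a => ((c (deg a) : ℚ) : K)) - algebraMap ℚ (ι → K) (c j)) *
          algebraMap ℚ (ι → K) ((c i - c j)⁻¹)) = fun a => if deg a = i then (1 : K) else 0 := by
      funext a
      rw [Finset.prod_apply]
      by_cases ha : deg a = i
      · rw [if_pos ha]
        refine Finset.prod_eq_one fun j hj => ?_
        obtain ⟨hji, hj'⟩ := Finset.mem_erase.mp hj
        obtain ⟨b, -, hb⟩ := Finset.mem_image.mp hj'
        have hne : c i - c j ≠ 0 := by
          intro h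
          have h1 : c (deg a) = c (deg b) := by rw [ha, hb]; linarith
          exact hji (by rw [← hb, ← hc a b ha h1, ha])
        have hneK : (((c i - c j : ℚ)) : K) ≠ 0 := by exact_mod_cast hne
        simp only [Pi.mul_apply, Pi.sub_apply, Pi.algebraMap_apply, eq_ratCast, ha]
        rw [← Rat.cast_sub, Rat.cast_inv]
        exact mul_inv_cancel₀ hneK
      · rw [if_neg ha]
        refine Finset.prod_eq_zero (i := deg a) ?_ ?_
        · exact Finset.mem_erase.mpr ⟨ha, Finset.mem_image_of_mem _ (Finset.mem_univ _)⟩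
        · simp only [Pi.mul_apply, Pi.sub_apply, Pi.algebraMap_apply, eq_ratCast, sub_self,
            zero_mul]
    rw [heq] at hmem
    exact hmem
  · push Not at hi
    have : proj K deg i = 0 := by
      unfold proj
      rw [← Matrix.diagonal_zero]
      congr 1
      funext a
      rw [if_neg (hi a)]
    rw [this]
    exact A.zero_mem

/-- the number `c_i`, `i ≤ e`, is different from the other ones -/
theorem cf_inj (deg : ι → ℕ) {z h : ι} (hz : ∀ a, deg a = 0 → a = z) (hz0 : deg z = 0)
    (hh : deg h = 2) (N m e : ℕ) (heh : 1 ≤ e) (hm : 3 * m ≤ 2 * N + 3)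
    (hpar : (e ≤ m ∧ Even m ∧ ∀ a, Even (deg a)) ∨ ∃ o, Odd (deg o) ∧ e + deg o ≤ m)
    (a b : ι) (ha : deg a ≤ e) (hab : cf deg N m (deg a) = cf deg N m (deg b)) :
    deg a = deg b := by
  have hem : e ≤ m := by
    rcases hpar with h1 | ⟨o, -, h1⟩
    · exact h1.1
    · omega
  have hpos : ∀ x : ι, deg x ≤ e → 0 < cnt deg N (m - deg x) := by
    intro x hx
    rcases Nat.even_or_odd (m - deg x) with he | ho
    · obtain ⟨j, hj⟩ := he
      rcases Nat.eq_zero_or_pos j with h0 | h0
      · rw [hj, h0]; exact cnt_zero deg hz0 N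
      · have := cnt_mono deg hz hz0 hh N 0 j (cnt_zero deg hz0 N) h0 (by omega)
        have h2 : m - deg x = 0 + 2 * j := by omega
        rw [h2]; omega
    · rcases hpar with ⟨-, hm2, hev⟩ | ⟨o, hoo, hoD⟩
      · exfalso
        have h1 := hev x
        have h2 : Even (m - deg x) := Nat.even_sub (by omega) |>.mpr ⟨fun _ => h1, fun _ => hm2⟩
        exact (Nat.not_even_iff_odd.mpr ho) h2
      · obtain ⟨u, hu⟩ := ho
        obtain ⟨v, hv⟩ := hoo
        rcases Nat.eq_zero_or_pos N with hN | hN
        · exfalso
          have h1 := heh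
          omega
        · obtain ⟨N', rfl⟩ : ∃ N', N = N' + 1 := ⟨N - 1, by omega⟩
          have h1 := cnt_one deg hz0 o N'
          rcases Nat.eq_or_lt_of_le (show deg o ≤ m - deg x by omega) with h2 | h2
          · rw [← h2]; exact h1
          · have := cnt_mono deg hz hz0 hh (N' + 1) (deg o) (u - v) h1 (by omega) (by omega)
            have h3 : m - deg x = deg o + 2 * (u - v) := by omega
            rw [h3]; omega
  have pa := hpos a ha
  have pa' : (0 : ℚ) < cnt deg N (m - deg a) := by exact_mod_cast pa
  have pb' : (0 : ℚ) ≤ cnt deg N (m - deg b) := Nat.cast_nonneg _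
  by_contra hne
  by_cases hbm : deg b ≤ m
  · rw [cf, cf, if_pos (by omega), if_pos hbm] at hab
    have same : cnt deg N (m - deg a) = cnt deg N (m - deg b) →
        Even (m - deg a) = Even (m - deg b) → False := by
      intro h1 h2
      have h3 : (m - deg a) % 2 = (m - deg b) % 2 := by
        rcases Nat.even_or_odd (m - deg a) with h4 | h4
        · have h5 : Even (m - deg b) := h2 ▸ h4
          rw [Nat.even_iff.mp h4, Nat.even_iff.mp h5]
        · have h5 : ¬ Even (m - deg b) := by rw [← h2]; exact Nat.not_even_iff_odd.mpr h4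
          rw [Nat.odd_iff.mp h4, Nat.odd_iff.mp (Nat.not_even_iff_odd.mp h5)]
      rcases Nat.lt_or_gt_of_ne hne with h4 | h4
      · have := cnt_mono deg hz hz0 hh N (m - deg b) ((deg b - deg a) / 2) (by omega)
          (by omega) (by omega)
        rw [show m - deg b + 2 * ((deg b - deg a) / 2) = m - deg a by omega] at this
        omega
      · have := cnt_mono deg hz hz0 hh N (m - deg a) ((deg a - deg b) / 2) pa
          (by omega) (by omega)
        rw [show m - deg a + 2 * ((deg a - deg b) / 2) = m - deg b by omega] at this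
        omega
    rcases Nat.even_or_odd (m - deg a) with ex | ox <;>
      rcases Nat.even_or_odd (m - deg b) with ey | oy
    · rw [ex.neg_one_pow, ey.neg_one_pow, one_mul, one_mul] at hab
      exact same (by exact_mod_cast hab) (by simp [ex, ey])
    · rw [ex.neg_one_pow, oy.neg_one_pow] at hab
      linarith
    · rw [ox.neg_one_pow, ey.neg_one_pow] at hab
      linarith
    · rw [ox.neg_one_pow, oy.neg_one_pow] at hab
      have h2 : (cnt deg N (m - deg a) : ℚ) = cnt deg N (m - deg b) := by linarith
      refine same (by exact_mod_cast h2) ?_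
      simp [Nat.not_even_iff_odd.mpr ox, Nat.not_even_iff_odd.mpr oy]
  · rw [cf, cf, if_pos (by omega), if_neg hbm] at hab
    have : (-1 : ℚ) ^ (m - deg a) ≠ 0 := pow_ne_zero _ (by norm_num)
    rcases mul_eq_zero.mp hab with h1 | h1
    · exact this h1
    · exact pa'.ne' h1

/-- the Künneth projectors of the power from those of `X` -/
theorem kunneth_mem {K : Type} [Field K] [CharZero K] (deg : ι → ℕ) {e : ℕ} (C : Cycles K ι deg e)
    (D : ℕ) (hD : ∀ a, deg a ≤ D) (hall : ∀ i, proj K deg i ∈ C.alg) (n m : ℕ) :
    kunneth K deg n m ∈ C.pow n := by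
  have heq : kunneth K deg n m =
      ∑ j ∈ (Fintype.piFinset fun _ : Fin n => range (D + 1)).filter (fun j => ∑ i, j i = m),
        (Matrix.of fun w w' : Fin n → ι => ∏ i, proj K deg (j i) (w i) (w' i)) := by
    ext w w'
    rw [Matrix.sum_apply]
    simp only [Matrix.of_apply, kunneth, proj]
    by_cases hw : w = w'
    · subst hw
      simp only [Matrix.diagonal_apply_eq]
      by_cases hm : ∑ i, deg (w i) = m
      · rw [if_pos hm]
        rw [Finset.sum_eq_single (fun i => deg (w i))]
        · simp
        · intro j _ hj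
          obtain ⟨i, hi⟩ : ∃ i, j i ≠ deg (w i) := by
            by_contra h
            push Not at h
            exact hj (funext h)
          exact Finset.prod_eq_zero (Finset.mem_univ i) (if_neg fun h => hi h.symm)
        · intro h
          exfalso
          refine h (Finset.mem_filter.mpr ⟨Fintype.mem_piFinset.mpr fun i => ?_, hm⟩)
          exact Finset.mem_range.mpr (by have := hD (w i); omega)
      · rw [if_neg hm]
        symm
        refine Finset.sum_eq_zero fun j hj => ?_
        obtain ⟨i, hi⟩ : ∃ i, j i ≠ deg (w i) := by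
          by_contra h
          push Not at h
          refine hm ?_
          rw [← (Finset.mem_filter.mp hj).2]
          exact Finset.sum_congr rfl fun i _ => (h i).symm
        exact Finset.prod_eq_zero (Finset.mem_univ i) (if_neg fun h => hi h.symm)
    · rw [Matrix.diagonal_apply_ne _ hw]
      symm
      refine Finset.sum_eq_zero fun j _ => ?_
      obtain ⟨i, hi⟩ : ∃ i, w i ≠ w' i := by
        by_contra h
        push Not at h
        exact hw (funext h)
      exact Finset.prod_eq_zero (Finset.mem_univ i) (Matrix.diagonal_apply_ne _ hi)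
  rw [heq]
  exact Submodule.sum_mem _ fun j _ => C.tensor n _ fun i => hall (j i)

theorem main {K : Type} [Field K] [CharZero K] (deg : ι → ℕ) {e : ℕ} (C : Cycles K ι deg e)
    {z h : ι} (hz : ∀ a, deg a = 0 → a = z) (hz0 : deg z = 0) (hh : deg h = 2)
    (N m : ℕ) (hD : ∀ a, deg a ≤ 2 * e) (hm : 3 * m ≤ 2 * N + 3)
    (hpar : (e ≤ m ∧ Even m ∧ ∀ a, Even (deg a)) ∨ ∃ o, Odd (deg o) ∧ e + deg o ≤ m) :
    kunneth K deg (N + 1) m ∈ C.pow (N + 1) ↔ ∀ i, proj K deg i ∈ C.alg := by
  refine ⟨fun hk => ?_, fun hall => kunneth_mem deg C (2 * e) hD hall _ _⟩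
  have h1 := C.contract_mem N _ hk
  rw [contract_kunneth] at h1
  have low : ∀ i, i ≤ e → proj K deg i ∈ C.alg := fun i hi =>
    separate deg C.alg (cf deg N m) h1 i fun a b ha hab =>
      cf_inj deg hz hz0 hh N m e (by have := hD h; omega) hm hpar a b (by omega) hab
  intro i
  by_cases hi : i ≤ e
  · exact low i hi
  · by_cases hi2 : i ≤ 2 * e
    · have := C.dual hD (2 * e - i) (by omega) (low _ (by omega))
      rwa [show 2 * e - (2 * e - i) = i by omega] at this
    · have : proj K deg i = 0 := by
        unfold proj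
        rw [← Matrix.diagonal_zero]
        congr 1
        funext a
        rw [if_neg (by have := hD a; omega)]
      rw [this]
      exact C.alg.zero_mem

end Pool.Agent.P8H28.KC
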