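import Mathlib

set_option autoImplicit false

open Finset

namespace Pool.Agent.P8H28.KC

variable {ι : Type} [Fintype ι]

/-- the Betti numbers -/
def betti (deg : ι → ℕ) (i : ℕ) : ℕ := ((univ : Finset ι).filter fun a => deg a = i).card

/-- the Betti numbers, as a function on the integers -/
def bt (deg : ι → ℕ) (j : ℤ) : ℤ := ∑ a : ι, if (deg a : ℤ) = j then 1 else 0

/-- the number of words of length `N` and degree `k`, as a function on the integers -/
def aa (deg : ι → ℕ) (N : ℕ) (k : ℤ) : ℤ :=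
  ∑ w : Fin N → ι, if (∑ i, (deg (w i) : ℤ)) = k then 1 else 0

theorem bt_nat (deg : ι → ℕ) (i : ℕ) : bt deg i = betti deg i := by
  unfold bt betti
  rw [Finset.card_filter]
  push_cast
  refine Finset.sum_congr rfl fun a _ => ?_
  by_cases h : deg a = i
  · rw [if_pos h, if_pos (by exact_mod_cast h)]
  · rw [if_neg h, if_neg (by exact_mod_cast h)]

theorem bt_neg (deg : ι → ℕ) (j : ℤ) (hj : j < 0) : bt deg j = 0 := by
  unfold bt
  refine Finset.sum_eq_zero fun a _ => if_neg ?_
  have : (0 : ℤ) ≤ deg a := Int.natCast_nonneg _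
  omega

theorem bt_nonneg (deg : ι → ℕ) (j : ℤ) : 0 ≤ bt deg j := by
  unfold bt
  refine Finset.sum_nonneg fun a _ => ?_
  split_ifs <;> norm_num

theorem aa_nonneg (deg : ι → ℕ) (N : ℕ) (j : ℤ) : 0 ≤ aa deg N j := by
  unfold aa
  refine Finset.sum_nonneg fun a _ => ?_
  split_ifs <;> norm_num

theorem aa_neg (deg : ι → ℕ) (N : ℕ) (j : ℤ) (hj : j < 0) : aa deg N j = 0 := by
  unfold aa
  refine Finset.sum_eq_zero fun a _ => if_neg ?_
  have : (0 : ℤ) ≤ ∑ i, (deg (a i) : ℤ) := Finset.sum_nonneg fun _ _ => Int.natCast_nonneg _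
  omega

theorem aa_zero (deg : ι → ℕ) (k : ℤ) : aa deg 0 k = if k = 0 then 1 else 0 := by
  unfold aa
  simp [eq_comm]

theorem aa_succ (deg : ι → ℕ) (N : ℕ) (k : ℤ) :
    aa deg (N + 1) k = ∑ a, aa deg N (k - deg a) := by
  unfold aa
  rw [← (Fin.consEquiv fun _ : Fin (N + 1) => ι).sum_comp, Fintype.sum_prod_type]
  refine Finset.sum_congr rfl fun a _ => Finset.sum_congr rfl fun w _ => ?_
  have h : ∑ i, (deg ((Fin.consEquiv fun _ : Fin (N + 1) => ι) (a, w) i) : ℤ) =
      deg a + ∑ i, (deg (w i) : ℤ) := by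
    rw [Fin.sum_univ_succ]
    simp [Fin.consEquiv]
  rw [h]
  by_cases h2 : ∑ i, (deg (w i) : ℤ) = k - deg a
  · rw [if_pos h2, if_pos (by omega)]
  · rw [if_neg h2, if_neg (by omega)]

theorem sum_bt (deg : ι → ℕ) (f : ℤ → ℤ) (W : Finset ℤ) (hW : ∀ a : ι, (deg a : ℤ) ∈ W) :
    ∑ a : ι, f (deg a) = ∑ j ∈ W, bt deg j * f j := by
  unfold bt
  simp only [Finset.sum_mul, ite_mul, one_mul, zero_mul]
  rw [Finset.sum_comm]
  refine Finset.sum_congr rfl fun a _ => ?_
  rw [Finset.sum_ite_eq]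
  rw [if_pos (hW a)]

/-- reflection of a sum over an interval -/
theorem sum_refl (c R : ℤ) (g : ℤ → ℤ) :
    ∑ j ∈ Finset.Icc (c - R) (c + R), g (2 * c - j) = ∑ j ∈ Finset.Icc (c - R) (c + R), g j := by
  refine Finset.sum_nbij' (fun j => 2 * c - j) (fun j => 2 * c - j) ?_ ?_ ?_ ?_ ?_
  · intro j hj
    rw [Finset.mem_Icc] at hj ⊢
    constructor <;> omega
  · intro j hj
    rw [Finset.mem_Icc] at hj ⊢
    constructor <;> omega
  · intro j _; ring
  · intro j _; ring
  · intro j _; rfl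

section

variable (deg : ι → ℕ) (e : ℕ) (hD : ∀ a, deg a ≤ 2 * e)
  (hsym : ∀ i, i ≤ 2 * e → betti deg i = betti deg (2 * e - i))
  (huni : ∀ i, i < e → betti deg i ≤ betti deg (i + 2))

include hD hsym

theorem bt_sym (j : ℤ) : bt deg (2 * e - j) = bt deg j := by
  rcases lt_or_ge j 0 with h | h
  · rw [bt_neg deg j h]
    unfold bt
    refine Finset.sum_eq_zero fun a _ => if_neg ?_
    have := hD a
    omega
  · rcases lt_or_ge (2 * (e : ℤ)) j with h1 | h1
    · rw [bt_neg deg _ (by omega)]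
      symm
      unfold bt
      refine Finset.sum_eq_zero fun a _ => if_neg ?_
      have := hD a
      omega
    · obtain ⟨i, rfl⟩ := Int.eq_ofNat_of_zero_le h
      have h2 : (2 * (e : ℤ) - (i : ℤ)) = ((2 * e - i : ℕ) : ℤ) := by omega
      have h3 : i ≤ 2 * e := by omega
      rw [h2, bt_nat, bt_nat, ← hsym i h3]

include huni

theorem bt_le (j j' : ℤ) (t : ℕ) (ht : j' = j + 2 * t) (hjj : j + j' ≤ 2 * e) :
    bt deg j ≤ bt deg j' := by
  rcases lt_or_ge j 0 with h | h
  · rw [bt_neg deg j h]; exact bt_nonneg deg j'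
  · have claim : ∀ (t i : ℕ), i + 2 * t ≤ e + 1 → betti deg i ≤ betti deg (i + 2 * t) := by
      intro t
      induction t with
      | zero => intro i _; exact le_refl _
      | succ t ih =>
        intro i hi
        have h1 := ih i (by omega)
        have h2 := huni (i + 2 * t) (by omega)
        exact h1.trans h2
    obtain ⟨i, rfl⟩ := Int.eq_ofNat_of_zero_le h
    rcases le_or_gt j' (e + 1) with h1 | h1
    · have h2 : j' = ((i + 2 * t : ℕ) : ℤ) := by omega
      rw [h2, bt_nat, bt_nat]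
      exact_mod_cast claim t i (by omega)
    · rw [← bt_sym deg e hD hsym j']
      have h2 : 2 * (e : ℤ) - j' = ((i + 2 * (e - i - t) : ℕ) : ℤ) := by omega
      rw [h2, bt_nat, bt_nat]
      exact_mod_cast claim (e - i - t) i (by omega)

omit huni in
theorem aa_sym (N : ℕ) (k : ℤ) : aa deg N (2 * (N * e) - k) = aa deg N k := by
  induction N generalizing k with
  | zero =>
    rw [aa_zero, aa_zero]
    by_cases h : k = 0
    · rw [if_pos h, if_pos (by simp [h])]
    · rw [if_neg h, if_neg (by simpa using h)]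
  | succ N ih =>
    rw [aa_succ, aa_succ]
    have hW : ∀ a : ι, (deg a : ℤ) ∈ Finset.Icc ((e : ℤ) - e) (e + e) := by
      intro a
      have := hD a
      rw [Finset.mem_Icc]
      omega
    rw [sum_bt deg (fun j => aa deg N (2 * (((N + 1 : ℕ) : ℤ) * e) - k - j)) _ hW,
      sum_bt deg (fun j => aa deg N (k - j)) _ hW, ← sum_refl]
    refine Finset.sum_congr rfl fun j _ => ?_
    rw [bt_sym deg e hD hsym, ← ih (k - j)]
    congr 2
    push_cast
    ring

/-- the first differences -/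
def dl (deg : ι → ℕ) (N : ℕ) (k : ℤ) : ℤ := aa deg N k - aa deg N (k - 2)

omit huni in
theorem dl_anti (N : ℕ) (k : ℤ) : dl deg N (2 * (N * e + 1) - k) = - dl deg N k := by
  unfold dl
  rw [← aa_sym deg e hD hsym N (2 * (N * e + 1) - k), ← aa_sym deg e hD hsym N
    (2 * (N * e + 1) - k - 2)]
  have h1 : 2 * ((N : ℤ) * e) - (2 * (N * e + 1) - k) = k - 2 := by ring
  have h2 : 2 * ((N : ℤ) * e) - (2 * (N * e + 1) - k - 2) = k := by ring
  rw [h1, h2]
  ring

omit hD hsym huni in
theorem dl_succ (N : ℕ) (k : ℤ) : dl deg (N + 1) k = ∑ a, dl deg N (k - deg a) := by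
  unfold dl
  rw [aa_succ, aa_succ, ← Finset.sum_sub_distrib]
  refine Finset.sum_congr rfl fun a _ => ?_
  congr 2
  ring

omit huni in
/-- the symmetrised formula -/
theorem dl_formula (N : ℕ) (k : ℤ) (R : ℤ)
    (hW : ∀ a : ι, (deg a : ℤ) ∈ Finset.Icc ((k - (N * e + 1)) - R) ((k - (N * e + 1)) + R)) :
    2 * dl deg (N + 1) k =
      ∑ j ∈ Finset.Icc ((k - (N * e + 1)) - R) ((k - (N * e + 1)) + R),
        (bt deg j - bt deg (2 * (k - (N * e + 1)) - j)) * dl deg N (k - j) := by
  set c : ℤ := k - (N * e + 1) with hc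
  have h1 : dl deg (N + 1) k = ∑ j ∈ Finset.Icc (c - R) (c + R), bt deg j * dl deg N (k - j) := by
    rw [dl_succ, sum_bt deg (fun j => dl deg N (k - j)) _ hW]
  have h2 : ∑ j ∈ Finset.Icc (c - R) (c + R), bt deg j * dl deg N (k - j) =
      - ∑ j ∈ Finset.Icc (c - R) (c + R), bt deg (2 * c - j) * dl deg N (k - j) := by
    rw [← sum_refl c R (fun j => bt deg j * dl deg N (k - j)), ← Finset.sum_neg_distrib]
    refine Finset.sum_congr rfl fun j _ => ?_
    have h3 : k - (2 * c - j) = 2 * (N * e + 1) - (k - j) := by rw [hc]; ring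
    rw [h3, dl_anti deg e hD hsym]
    ring
  simp only [sub_mul, Finset.sum_sub_distrib]
  linarith

/-- all terms are nonnegative -/
theorem term_nonneg (N : ℕ) (ih : ∀ l : ℤ, l ≤ N * e → 0 ≤ dl deg N l) (k : ℤ)
    (hk : k ≤ (N + 1) * e) (j : ℤ) :
    0 ≤ (bt deg j - bt deg (2 * (k - (N * e + 1)) - j)) * dl deg N (k - j) := by
  have ih' : ∀ l : ℤ, l ≤ N * e + 1 → 0 ≤ dl deg N l := by
    intro l hl
    rcases lt_or_eq_of_le hl with h | h
    · exact ih l (by omega)
    · have := dl_anti deg e hD hsym N l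
      rw [h] at this ⊢
      have h2 : 2 * ((N : ℤ) * e + 1) - (N * e + 1) = N * e + 1 := by ring
      rw [h2] at this
      omega
  set c : ℤ := k - (N * e + 1) with hc
  have hce : c + 1 ≤ e := by
    have : ((N : ℤ) + 1) * e = N * e + e := by ring
    omega
  rcases le_or_gt c j with h | h
  · have h1 := ih' (k - j) (by omega)
    have h2 : bt deg (2 * c - j) ≤ bt deg j :=
      bt_le deg e hD hsym huni (2 * c - j) j (j - c).toNat (by omega) (by omega)
    exact mul_nonneg (by linarith) h1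
  · have h1 := ih' (2 * (N * e + 1) - (k - j)) (by omega)
    rw [dl_anti deg e hD hsym] at h1
    have h2 : bt deg j ≤ bt deg (2 * c - j) :=
      bt_le deg e hD hsym huni j (2 * c - j) (c - j).toNat (by omega) (by omega)
    exact mul_nonneg_of_nonpos_of_nonpos (by linarith) (by linarith)

theorem dl_nonneg (N : ℕ) : ∀ k : ℤ, k ≤ N * e → 0 ≤ dl deg N k := by
  induction N with
  | zero =>
    intro k hk
    unfold dl
    rw [aa_zero, aa_zero]
    have : k ≤ 0 := by simpa using hk
    rw [if_neg (show ¬ k - 2 = 0 by omega)]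
    split_ifs <;> norm_num
  | succ N ih =>
    intro k hk
    have hk' : k ≤ ((N : ℤ) + 1) * e := by push_cast at hk; exact hk
    have hW : ∀ a : ι, (deg a : ℤ) ∈ Finset.Icc ((k - (N * e + 1)) - (2 * e + |k - (N * e + 1)|))
        ((k - (N * e + 1)) + (2 * e + |k - (N * e + 1)|)) := by
      intro a
      have := hD a
      rw [Finset.mem_Icc]
      have h1 := le_abs_self (k - ((N : ℤ) * e + 1))
      have h2 := neg_abs_le (k - ((N : ℤ) * e + 1))
      constructor <;> omega
    have h := dl_formula deg e hD hsym N k _ hW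
    have h2 : 0 ≤ 2 * dl deg (N + 1) k := by
      rw [h]
      exact Finset.sum_nonneg fun j _ => term_nonneg deg e hD hsym huni N ih k hk' j
    omega

/-- strict positivity from one term -/
theorem dl_pos (N : ℕ) (k j : ℤ) (hk : k ≤ (N + 1) * e) (hj0 : 0 ≤ j) (hj1 : j ≤ 2 * e)
    (h1 : 0 < dl deg N (k - j)) (h2 : bt deg (2 * (k - (N * e + 1)) - j) < bt deg j) :
    0 < dl deg (N + 1) k := by
  have hW : ∀ a : ι, (deg a : ℤ) ∈ Finset.Icc ((k - (N * e + 1)) - (2 * e + |k - (N * e + 1)|))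
      ((k - (N * e + 1)) + (2 * e + |k - (N * e + 1)|)) := by
    intro a
    have := hD a
    rw [Finset.mem_Icc]
    have h1 := le_abs_self (k - ((N : ℤ) * e + 1))
    have h2 := neg_abs_le (k - ((N : ℤ) * e + 1))
    constructor <;> omega
  have hjW : j ∈ Finset.Icc ((k - (N * e + 1)) - (2 * e + |k - (N * e + 1)|))
      ((k - (N * e + 1)) + (2 * e + |k - (N * e + 1)|)) := by
    rw [Finset.mem_Icc]
    have h1 := le_abs_self (k - ((N : ℤ) * e + 1))
    have h2 := neg_abs_le (k - ((N : ℤ) * e + 1))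
    constructor <;> omega
  have h := dl_formula deg e hD hsym N k _ hW
  have h3 : 0 < 2 * dl deg (N + 1) k := by
    rw [h]
    refine Finset.sum_pos' (fun j _ =>
      term_nonneg deg e hD hsym huni N (dl_nonneg deg e hD hsym huni N) k hk j) ⟨j, hjW, ?_⟩
    exact mul_pos (by linarith) h1
  omega

end

end Pool.Agent.P8H28.KC
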