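import Pool.Agent.P8H28.KC.Main
import Pool.Agent.P8H28.KC.Uni

set_option autoImplicit false

open Finset

namespace Pool.Agent.P8H28.KC

variable {ι : Type} [Fintype ι] [DecidableEq ι]

theorem bt_pos_of (deg : ι → ℕ) (a : ι) : 0 < bt deg (deg a) := by
  unfold bt
  refine Finset.sum_pos' (fun b _ => ?_) ⟨a, Finset.mem_univ _, ?_⟩
  · split_ifs <;> norm_num
  · simp

theorem of_bt_pos (deg : ι → ℕ) (j : ℤ) (h : 0 < bt deg j) : ∃ a, (deg a : ℤ) = j := by
  by_contra hc
  push Not at hc
  have : bt deg j = 0 := Finset.sum_eq_zero fun a _ => if_neg (hc a)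
  omega

theorem dl_zero_pos (deg : ι → ℕ) {z : ι} (hz : deg z = 0) (N : ℕ) : 0 < dl deg N 0 := by
  unfold dl
  rw [aa_neg deg N (0 - 2) (by norm_num), sub_zero]
  unfold aa
  refine Finset.sum_pos' (fun b _ => ?_) ⟨fun _ => z, Finset.mem_univ _, ?_⟩
  · split_ifs <;> norm_num
  · simp [hz]

section

variable (deg : ι → ℕ) (e : ℕ) (hD : ∀ a, deg a ≤ 2 * e)
  (hsym : ∀ i, i ≤ 2 * e → betti deg i = betti deg (2 * e - i))
  (huni : ∀ i, i < e → betti deg i ≤ betti deg (i + 2)) {z : ι} (hz : deg z = 0)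

include hD hsym huni hz

theorem even_pos (N : ℕ) (hN : 2 ≤ N) :
    ∀ k : ℤ, Even k → 0 ≤ k → k ≤ N * e → 0 < dl deg N k := by
  have b0 : 0 < bt deg 0 := by simpa [hz] using bt_pos_of deg z
  induction N, hN using Nat.le_induction with
  | base =>
    intro k hk h0 hk2
    obtain ⟨t, ht⟩ := hk
    have hk3 : k ≤ ((1 : ℕ) + 1) * e := by push_cast at hk2 ⊢; omega
    refine dl_pos deg e hD hsym huni 1 k k hk3 h0 (by push_cast at hk3; omega) ?_ ?_
    · rw [sub_self]; exact dl_zero_pos deg hz 1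
    · rw [bt_neg deg _ (by push_cast at hk3 ⊢; omega)]
      exact b0.trans_le (bt_le deg e hD hsym huni 0 k t.toNat (by omega)
        (by push_cast at hk3; omega))
  | succ N hN ih =>
    intro k hk h0 hk2
    have hk3 : k ≤ ((N : ℤ) + 1) * e := by push_cast at hk2; exact hk2
    have hNe : ((N : ℤ) + 1) * e = N * e + e := by ring
    have hNe2 : 2 * (e : ℤ) ≤ N * e := by
      have : (2 : ℤ) ≤ N := by exact_mod_cast hN
      nlinarith [Int.natCast_nonneg e]
    rcases le_or_gt k (2 * e) with h1 | h1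
    · refine dl_pos deg e hD hsym huni N k k hk3 h0 h1 ?_ ?_
      · rw [sub_self]; exact dl_zero_pos deg hz N
      · rw [bt_neg deg _ (by omega)]
        obtain ⟨t, ht⟩ := hk
        exact b0.trans_le (bt_le deg e hD hsym huni 0 k t.toNat (by omega) (by omega))
    · refine dl_pos deg e hD hsym huni N k (2 * e) hk3 (by omega) le_rfl ?_ ?_
      · refine ih (k - 2 * e) ?_ (by omega) (by omega)
        obtain ⟨t, ht⟩ := hk
        exact ⟨t - e, by omega⟩
      · rw [bt_neg deg _ (by omega)]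
        exact b0.trans_le (bt_le deg e hD hsym huni 0 (2 * e) e (by omega) (by omega))

theorem odd_pos (M : ℕ) (hM : 2 ≤ M) (s : ℕ) (hs : Odd (s : ℤ)) (hbs : 0 < bt deg s)
    (hmin : ∀ j : ℤ, Odd j → j < s → bt deg j = 0) (hse : s ≤ e) (k : ℤ) (hk : Odd k)
    (hsk : (s : ℤ) ≤ k) (hk2 : k ≤ ((M : ℤ) + 1) * e) : 0 < dl deg (M + 1) k := by
  have hNe : ((M : ℤ) + 1) * e = M * e + e := by ring
  have hNe2 : 2 * (e : ℤ) ≤ M * e := by
    have : (2 : ℤ) ≤ M := by exact_mod_cast hM
    nlinarith [Int.natCast_nonneg e]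
  obtain ⟨u, hu⟩ := hs
  obtain ⟨v, hv⟩ := hk
  rcases le_or_gt k (2 * e - s) with h1 | h1
  · refine dl_pos deg e hD hsym huni M k k hk2 (by omega) (by omega) ?_ ?_
    · rw [sub_self]; exact dl_zero_pos deg hz M
    · rw [bt_neg deg _ (by omega)]
      exact hbs.trans_le (bt_le deg e hD hsym huni s k (v - u).toNat (by omega) (by omega))
  · refine dl_pos deg e hD hsym huni M k (2 * e - s) hk2 (by omega) (by omega) ?_ ?_
    · refine even_pos deg e hD hsym huni hz M hM _ ?_ (by omega) (by omega)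
      exact ⟨v - e + u + 1, by omega⟩
    · rw [bt_sym deg e hD hsym, hmin _ ?_ (by omega)]
      · exact hbs
      · exact ⟨k - (M * e + 1) - e + u, by omega⟩

omit hz in
theorem aa_le (N : ℕ) (k : ℤ) (t : ℕ) (hk : k + 2 * t ≤ N * e) :
    aa deg N k ≤ aa deg N (k + 2 * t) := by
  induction t with
  | zero => simp
  | succ t ih =>
    have h1 := ih (by push_cast at hk; omega)
    have h2 := dl_nonneg deg e hD hsym huni N (k + 2 * ((t + 1 : ℕ) : ℤ)) hk
    unfold dl at h2
    rw [show k + 2 * ((t + 1 : ℕ) : ℤ) - 2 = k + 2 * t by push_cast; ring] at h2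
    omega

omit hz in
theorem aa_lt (N : ℕ) (k k' : ℤ) (t : ℕ) (ht : k' = k + 2 * t) (ht1 : 1 ≤ t) (hk : k' ≤ N * e)
    (hp : 0 < dl deg N k') : aa deg N k < aa deg N k' := by
  obtain ⟨t', rfl⟩ : ∃ t', t = t' + 1 := ⟨t - 1, by omega⟩
  have h1 := aa_le deg e hD hsym huni N k t' (by push_cast at ht; omega)
  unfold dl at hp
  rw [show k' - 2 = k + 2 * (t' : ℤ) by push_cast at ht; omega] at hp
  omega

end

theorem cnt_aa (deg : ι → ℕ) (N k : ℕ) : (cnt deg N k : ℤ) = aa deg N k := by
  unfold cnt aa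
  rw [Finset.card_filter]
  push_cast
  refine Finset.sum_congr rfl fun w _ => ?_
  by_cases h : ∑ i, deg (w i) = k
  · rw [if_pos h, if_pos (by exact_mod_cast h)]
  · rw [if_neg h, if_neg (by exact_mod_cast h)]

/-- `cf_inj` from a strict monotony property -/
theorem cf_inj_of (deg : ι → ℕ) (N m e : ℕ) (hem : e ≤ m) (P : ℕ → Prop)
    (hP : ∀ k k' : ℕ, k < k' → k' % 2 = k % 2 → k' ≤ m → P k' → cnt deg N k < cnt deg N k')
    (hpos : ∀ k : ℕ, k ≤ m → P k → 0 < cnt deg N k)
    (hPm : ∀ a k, deg a ≤ e → m - deg a ≤ k → P k ∨ ∀ b, m - deg b ≠ k)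
    (a b : ι) (ha : deg a ≤ e) (hab : cf deg N m (deg a) = cf deg N m (deg b)) :
    deg a = deg b := by
  have hPa : P (m - deg a) := by
    rcases hPm a (m - deg a) ha le_rfl with h | h
    · exact h
    · exact absurd rfl (h a)
  have pa := hpos _ (by omega) hPa
  have pa' : (0 : ℚ) < cnt deg N (m - deg a) := by exact_mod_cast pa
  have pb' : (0 : ℚ) ≤ cnt deg N (m - deg b) := Nat.cast_nonneg _
  by_contra hne
  by_cases hbm : deg b ≤ m
  · rw [cf, cf, if_pos (by omega), if_pos hbm] at hab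
    have same : cnt deg N (m - deg a) = cnt deg N (m - deg b) →
        (m - deg a) % 2 = (m - deg b) % 2 → False := by
      intro h1 h3
      rcases Nat.lt_or_gt_of_ne hne with h4 | h4
      · have := hP (m - deg b) (m - deg a) (by omega) h3 (by omega) hPa
        omega
      · have hPb : P (m - deg b) := by
          rcases hPm a (m - deg b) ha (by omega) with h | h
          · exact h
          · exact absurd rfl (h b)
        have := hP (m - deg a) (m - deg b) (by omega) h3.symm (by omega) hPb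
        omega
    rcases Nat.even_or_odd (m - deg a) with ex | ox <;>
      rcases Nat.even_or_odd (m - deg b) with ey | oy
    · rw [ex.neg_one_pow, ey.neg_one_pow, one_mul, one_mul] at hab
      exact same (by exact_mod_cast hab) (by rw [Nat.even_iff.mp ex, Nat.even_iff.mp ey])
    · rw [ex.neg_one_pow, oy.neg_one_pow] at hab
      linarith
    · rw [ox.neg_one_pow, ey.neg_one_pow] at hab
      linarith
    · rw [ox.neg_one_pow, oy.neg_one_pow] at hab
      have h2 : (cnt deg N (m - deg a) : ℚ) = cnt deg N (m - deg b) := by linarith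
      exact same (by exact_mod_cast h2) (by rw [Nat.odd_iff.mp ox, Nat.odd_iff.mp oy])
  · rw [cf, cf, if_pos (by omega), if_neg hbm] at hab
    have : (-1 : ℚ) ^ (m - deg a) ≠ 0 := pow_ne_zero _ (by norm_num)
    rcases mul_eq_zero.mp hab with h1 | h1
    · exact this h1
    · exact pa'.ne' h1

/-- the number `c_i`, `i ≤ e`, is different from the other ones: hard Lefschetz version -/
theorem cf_inj2 (deg : ι → ℕ) (e : ℕ) (hD : ∀ a, deg a ≤ 2 * e)
    (hsym : ∀ i, i ≤ 2 * e → betti deg i = betti deg (2 * e - i))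
    (huni : ∀ i, i < e → betti deg i ≤ betti deg (i + 2)) {z : ι} (hz : deg z = 0)
    (N m : ℕ) (hN : 3 ≤ N) (hm : m ≤ N * e)
    (hpar : (e ≤ m ∧ Even m ∧ ∀ a, Even (deg a)) ∨ ∃ o, Odd (deg o) ∧ e + deg o ≤ m)
    (a b : ι) (ha : deg a ≤ e) (hab : cf deg N m (deg a) = cf deg N m (deg b)) :
    deg a = deg b := by
  obtain ⟨M, rfl⟩ : ∃ M, N = M + 1 := ⟨N - 1, by omega⟩
  have hmZ : (m : ℤ) ≤ ((M + 1 : ℕ) : ℤ) * e := by exact_mod_cast hm
  rcases hpar with ⟨hem, hm2, hev⟩ | ⟨o, hoo, hoD⟩
  · have pos : ∀ k : ℕ, k ≤ m → Even k → 0 < dl deg (M + 1) k := fun k hk hk2 =>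
      even_pos deg e hD hsym huni hz (M + 1) (by omega) k (by exact_mod_cast hk2)
        (Int.natCast_nonneg _) (by omega)
    refine cf_inj_of deg (M + 1) m e hem (fun k => Even k) ?_ ?_ ?_ a b ha hab
    · intro k k' h1 h2 h3 h4
      have := aa_lt deg e hD hsym huni (M + 1) k k' ((k' - k) / 2) (by omega) (by omega)
        (by omega) (pos k' h3 h4)
      rw [← cnt_aa, ← cnt_aa] at this
      exact_mod_cast this
    · intro k h1 h2
      have h3 := pos k h1 h2
      unfold dl at h3
      have h4 := aa_nonneg deg (M + 1) ((k : ℤ) - 2)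
      rw [← cnt_aa] at h3
      omega
    · intro a k h1 h2
      by_cases hk : Even k
      · exact Or.inl hk
      · refine Or.inr fun b hb => hk ?_
        rw [← hb]
        rcases le_or_gt (deg b) m with h5 | h5
        · exact (Nat.even_sub h5).mpr ⟨fun _ => hev b, fun _ => hm2⟩
        · rw [Nat.sub_eq_zero_of_le h5.le]; exact Even.zero
  · classical
    obtain ⟨o0, ho0, hmin⟩ := Finset.exists_min_image
      ((univ : Finset ι).filter fun a => Odd (deg a)) deg ⟨o, by simpa using hoo⟩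
    have ho1 : Odd (deg o0) := (Finset.mem_filter.mp ho0).2
    have hmin' : ∀ a, Odd (deg a) → deg o0 ≤ deg a := fun a h =>
      hmin a (Finset.mem_filter.mpr ⟨Finset.mem_univ _, h⟩)
    have hso : deg o0 ≤ deg o := hmin' o hoo
    have hb0 : 0 < bt deg (deg o0 : ℤ) := bt_pos_of deg o0
    have hzero : ∀ j : ℤ, Odd j → j < deg o0 → bt deg j = 0 := by
      intro j hj hlt
      by_contra hc
      obtain ⟨a, ha⟩ := of_bt_pos deg j (lt_of_le_of_ne (bt_nonneg deg j) (Ne.symm hc))
      have h1 : Odd (deg a) := by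
        have : Odd ((deg a : ℕ) : ℤ) := by rw [ha]; exact hj
        exact_mod_cast this
      have := hmin' a h1
      omega
    have hse : deg o0 ≤ e := by
      by_contra hc
      have h1 := bt_sym deg e hD hsym (deg o0 : ℤ)
      have h2 : bt deg (2 * (e : ℤ) - (deg o0 : ℤ)) = 0 := by
        refine hzero _ ?_ (by omega)
        obtain ⟨u, hu⟩ := ho1
        exact ⟨(e : ℤ) - u - 1, by omega⟩
      omega
    have pos : ∀ k : ℕ, k ≤ m → (Even k ∨ deg o0 ≤ k) → 0 < dl deg (M + 1) k := by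
      intro k hk hk2
      rcases Nat.even_or_odd k with he | ho
      · exact even_pos deg e hD hsym huni hz (M + 1) (by omega) k (by exact_mod_cast he)
          (Int.natCast_nonneg _) (by omega)
      · have h3 : deg o0 ≤ k := by
          rcases hk2 with h | h
          · exact absurd h (Nat.not_even_iff_odd.mpr ho)
          · exact h
        refine odd_pos deg e hD hsym huni hz M (by omega) (deg o0) (by exact_mod_cast ho1) hb0
          hzero hse k (by exact_mod_cast ho) (by exact_mod_cast h3) ?_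
        push_cast at hmZ
        omega
    refine cf_inj_of deg (M + 1) m e (by omega) (fun k => Even k ∨ deg o0 ≤ k) ?_ ?_ ?_ a b ha hab
    · intro k k' h1 h2 h3 h4
      have := aa_lt deg e hD hsym huni (M + 1) k k' ((k' - k) / 2) (by omega) (by omega)
        (by omega) (pos k' h3 h4)
      rw [← cnt_aa, ← cnt_aa] at this
      exact_mod_cast this
    · intro k h1 h2
      have h3 := pos k h1 h2
      unfold dl at h3
      have h4 := aa_nonneg deg (M + 1) ((k : ℤ) - 2)
      rw [← cnt_aa] at h3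
      omega
    · intro a k h1 h2
      exact Or.inl (Or.inr (by omega))

theorem cf_eq (deg : ι → ℕ) (N m i : ℕ) :
    cf deg N m i = (-1) ^ (m + i) * ((aa deg N ((m : ℤ) - i) : ℤ) : ℚ) := by
  unfold cf
  by_cases h : i ≤ m
  · rw [if_pos h]
    have h1 : (m : ℤ) - i = ((m - i : ℕ) : ℤ) := by omega
    have h2 : m + i = (m - i) + 2 * i := by omega
    rw [h1, ← cnt_aa, h2, pow_add, pow_mul]
    simp
  · rw [if_neg h, aa_neg deg N _ (by omega)]
    simp

/-- separation by several functions -/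
theorem separate2 {K : Type} [Field K] [CharZero K] (deg : ι → ℕ)
    (A : Subalgebra ℚ (Matrix ι ι K))
    (hc : ∀ i j, i ≠ j → (∃ a, deg a = i) → (∃ a, deg a = j) →
      ∃ c : ℕ → ℚ, (Matrix.diagonal fun a => ((c (deg a) : ℚ) : K)) ∈ A ∧ c i ≠ c j)
    (i : ℕ) : proj K deg i ∈ A := by
  classical
  by_cases hi : ∃ a, deg a = i
  · have hc' : ∀ j : ℕ, ∃ c : ℕ → ℚ, (Matrix.diagonal fun a => ((c (deg a) : ℚ) : K)) ∈ A ∧
        (i ≠ j → (∃ a, deg a = j) → c i ≠ c j) := by
      intro j
      by_cases h : i ≠ j ∧ ∃ a, deg a = j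
      · obtain ⟨c, h1, h2⟩ := hc i j h.1 hi h.2
        exact ⟨c, h1, fun _ _ => h2⟩
      · refine ⟨fun _ => 0, ?_, fun h1 h2 => absurd ⟨h1, h2⟩ h⟩
        have : (Matrix.diagonal fun _ : ι => ((0 : ℚ) : K)) = 0 := by
          simp
        rw [this]
        exact A.zero_mem
    choose c hcA hcne using hc'
    let B : Subalgebra ℚ (ι → K) := A.comap (Matrix.diagonalAlgHom ℚ)
    have hf : ∀ j, (fun a => ((c j (deg a) : ℚ) : K)) ∈ B := hcA
    have hmem : (∏ j ∈ (univ.image deg).erase i,
        ((fun a => ((c j (deg a) : ℚ) : K)) - algebraMap ℚ (ι → K) (c j j)) *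
          algebraMap ℚ (ι → K) ((c j i - c j j)⁻¹)) ∈ B := by
      refine Subalgebra.prod_mem _ fun j _ => ?_
      exact B.mul_mem (B.sub_mem (hf j) (B.algebraMap_mem _)) (B.algebraMap_mem _)
    have heq : (∏ j ∈ (univ.image deg).erase i,
        ((fun a => ((c j (deg a) : ℚ) : K)) - algebraMap ℚ (ι → K) (c j j)) *
          algebraMap ℚ (ι → K) ((c j i - c j j)⁻¹)) = fun a => if deg a = i then (1 : K) else 0 := by
      funext a
      rw [Finset.prod_apply]
      by_cases ha : deg a = i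
      · rw [if_pos ha]
        refine Finset.prod_eq_one fun j hj => ?_
        obtain ⟨hji, hj'⟩ := Finset.mem_erase.mp hj
        obtain ⟨b, -, hb⟩ := Finset.mem_image.mp hj'
        have hne : c j i - c j j ≠ 0 := sub_ne_zero.mpr (hcne j (Ne.symm hji) ⟨b, hb⟩)
        have hneK : (((c j i - c j j : ℚ)) : K) ≠ 0 := by exact_mod_cast hne
        simp only [Pi.mul_apply, Pi.sub_apply, Pi.algebraMap_apply, eq_ratCast, ha]
        rw [← Rat.cast_sub, Rat.cast_inv]
        exact mul_inv_cancel₀ hneK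
      · rw [if_neg ha]
        refine Finset.prod_eq_zero (i := deg a) ?_ ?_
        · exact Finset.mem_erase.mpr ⟨ha, Finset.mem_image_of_mem _ (Finset.mem_univ _)⟩
        · simp only [Pi.mul_apply, Pi.sub_apply, Pi.algebraMap_apply, eq_ratCast, sub_self,
            zero_mul]
    rw [heq] at hmem
    exact hmem
  · push Not at hi
    have : proj K deg i = 0 := by
      unfold proj
      rw [← Matrix.diagonal_zero]
      congr 1
      funext a
      rw [if_neg (hi a)]
    rw [this]
    exact A.zero_mem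

/-- the half of a symmetric sequence -/
theorem fold_eq (deg : ι → ℕ) (e : ℕ) (hD : ∀ a, deg a ≤ 2 * e)
    (hsym : ∀ i, i ≤ 2 * e → betti deg i = betti deg (2 * e - i))
    (huni : ∀ i, i < e → betti deg i ≤ betti deg (i + 2)) (N : ℕ) (k k' : ℤ)
    (hpar : ∃ t : ℤ, k' = k + 2 * t)
    (h1 : 0 < dl deg N (min k (2 * (N * e) - k))) (h2 : 0 < dl deg N (min k' (2 * (N * e) - k')))
    (h : aa deg N k = aa deg N k') : k = k' ∨ k + k' = 2 * (N * e) := by
  obtain ⟨t, ht⟩ := hpar
  have e1 : ∀ x : ℤ, aa deg N (min x (2 * (N * e) - x)) = aa deg N x := by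
    intro x
    rcases min_choice x (2 * ((N : ℤ) * e) - x) with h3 | h3
    · rw [h3]
    · rw [h3, aa_sym deg e hD hsym]
  have e2 : ∀ x : ℤ, min x (2 * ((N : ℤ) * e) - x) ≤ N * e := by
    intro x
    rcases le_total x (N * e) with h3 | h3
    · exact (min_le_left _ _).trans h3
    · exact (min_le_right _ _).trans (by omega)
  rw [← e1 k, ← e1 k'] at h
  have e3 := e2 k
  have e4 := e2 k'
  have e5 : min k (2 * ((N : ℤ) * e) - k) = k ∨ min k (2 * ((N : ℤ) * e) - k) =
    2 * ((N : ℤ) * e) - k := min_choice _ _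
  have e6 : min k' (2 * ((N : ℤ) * e) - k') = k' ∨ min k' (2 * ((N : ℤ) * e) - k') =
    2 * ((N : ℤ) * e) - k' := min_choice _ _
  generalize min k (2 * ((N : ℤ) * e) - k) = x at *
  generalize min k' (2 * ((N : ℤ) * e) - k') = y at *
  rcases lt_trichotomy x y with h3 | h3 | h3
  · exfalso
    have h4 := aa_lt deg e hD hsym huni N x y ((y - x) / 2).toNat
      (by rcases e5 with e5 | e5 <;> rcases e6 with e6 | e6 <;> omega)
      (by rcases e5 with e5 | e5 <;> rcases e6 with e6 | e6 <;> omega) e4 h2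
    omega
  · rcases e5 with e5 | e5 <;> rcases e6 with e6 | e6 <;> omega
  · exfalso
    have h4 := aa_lt deg e hD hsym huni N y x ((x - y) / 2).toNat
      (by rcases e5 with e5 | e5 <;> rcases e6 with e6 | e6 <;> omega)
      (by rcases e5 with e5 | e5 <;> rcases e6 with e6 | e6 <;> omega) e3 h1
    omega


end Pool.Agent.P8H28.KC
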