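import Pool.Agent.P8H28.KC.Main2

set_option autoImplicit false

open Finset

namespace Pool.Agent.P8H28.KC

variable {ι : Type} [Fintype ι] [DecidableEq ι]

section

variable (deg : ι → ℕ) (e : ℕ) (hD : ∀ a, deg a ≤ 2 * e)
  (hsym : ∀ i, i ≤ 2 * e → betti deg i = betti deg (2 * e - i))
  (huni : ∀ i, i < e → betti deg i ≤ betti deg (i + 2)) {z : ι} (hz : deg z = 0)

include hD hsym huni hz

theorem pos_mid (N : ℕ) (hN : 3 ≤ N) (x : ℤ) (hx : (e : ℤ) ≤ x) (hx2 : x ≤ N * e)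
    (hB : Even x ∨ ∃ o, Odd (deg o)) : 0 < dl deg N x := by
  classical
  rcases Int.even_or_odd x with he | ho
  · exact even_pos deg e hD hsym huni hz N (by omega) x he (by omega) hx2
  · obtain ⟨o, hoo⟩ : ∃ o, Odd (deg o) := by
      rcases hB with h | h
      · exact absurd h (Int.not_even_iff_odd.mpr ho)
      · exact h
    obtain ⟨M, rfl⟩ : ∃ M, N = M + 1 := ⟨N - 1, by omega⟩
    obtain ⟨o0, ho0, hmin⟩ := Finset.exists_min_image
      ((univ : Finset ι).filter fun a => Odd (deg a)) deg ⟨o, by simpa using hoo⟩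
    have ho1 : Odd (deg o0) := (Finset.mem_filter.mp ho0).2
    have hmin' : ∀ a, Odd (deg a) → deg o0 ≤ deg a := fun a h =>
      hmin a (Finset.mem_filter.mpr ⟨Finset.mem_univ _, h⟩)
    have hb0 : 0 < bt deg (deg o0 : ℤ) := bt_pos_of deg o0
    have hzero : ∀ j : ℤ, Odd j → j < deg o0 → bt deg j = 0 := by
      intro j hj hlt
      by_contra hc
      obtain ⟨a, ha⟩ := of_bt_pos deg j (lt_of_le_of_ne (bt_nonneg deg j) (Ne.symm hc))
      have h1 : Odd (deg a) := by
        have : Odd ((deg a : ℕ) : ℤ) := by rw [ha]; exact hj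
        exact_mod_cast this
      have := hmin' a h1
      omega
    have hse : deg o0 ≤ e := by
      by_contra hc
      have h1 := bt_sym deg e hD hsym (deg o0 : ℤ)
      have h2 : bt deg (2 * (e : ℤ) - (deg o0 : ℤ)) = 0 := by
        refine hzero _ ?_ (by omega)
        obtain ⟨u, hu⟩ := ho1
        exact ⟨(e : ℤ) - u - 1, by omega⟩
      omega
    refine odd_pos deg e hD hsym huni hz M (by omega) (deg o0) (by exact_mod_cast ho1) hb0
      hzero hse x ho (by omega) ?_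
    push_cast at hx2
    omega

theorem fold_pos (N : ℕ) (hN : 3 ≤ N) (m i : ℕ) (hi : i ≤ 2 * e) (hm1 : N * e < m)
    (hm2 : m < (N + 1) * e) (hB : Even ((m : ℤ) - i) ∨ ∃ o, Odd (deg o)) :
    0 < dl deg N (min ((m : ℤ) - i) (2 * (N * e) - ((m : ℤ) - i))) := by
  have h1 : ((N : ℤ) * e) < m := by exact_mod_cast hm1
  have h2 : (m : ℤ) < (N + 1) * e := by exact_mod_cast hm2
  have h3 : ((N : ℤ) + 1) * e = N * e + e := by ring
  have h4 : 3 * (e : ℤ) ≤ N * e := by
    have : (3 : ℤ) ≤ N := by exact_mod_cast hN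
    nlinarith [Int.natCast_nonneg e]
  rcases le_total ((m : ℤ) - i) (2 * (N * e) - ((m : ℤ) - i)) with h | h
  · rw [min_eq_left h]
    exact pos_mid deg e hD hsym huni hz N hN _ (by omega) (by omega) hB
  · rw [min_eq_right h]
    refine pos_mid deg e hD hsym huni hz N hN _ (by omega) (by omega) ?_
    rcases hB with h5 | h5
    · left
      obtain ⟨t, ht⟩ := h5
      exact ⟨N * e - t, by omega⟩
    · exact Or.inr h5

theorem aa_pos (N : ℕ) (hN : 3 ≤ N) (m i : ℕ) (hi : i ≤ 2 * e) (hm1 : N * e < m)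
    (hm2 : m < (N + 1) * e) (hB : Even ((m : ℤ) - i) ∨ ∃ o, Odd (deg o)) :
    0 < aa deg N ((m : ℤ) - i) := by
  have h := fold_pos deg e hD hsym huni hz N hN m i hi hm1 hm2 hB
  have h2 : aa deg N (min ((m : ℤ) - i) (2 * (N * e) - ((m : ℤ) - i))) =
      aa deg N ((m : ℤ) - i) := by
    rcases min_choice ((m : ℤ) - i) (2 * ((N : ℤ) * e) - ((m : ℤ) - i)) with h3 | h3
    · rw [h3]
    · rw [h3, aa_sym deg e hD hsym]
  rw [← h2]
  unfold dl at h
  have := aa_nonneg deg N (min ((m : ℤ) - i) (2 * (N * e) - ((m : ℤ) - i)) - 2)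
  omega

theorem cf_pair (N : ℕ) (hN : 3 ≤ N) (m i j : ℕ) (hi : i ≤ 2 * e) (hj : j ≤ 2 * e)
    (hm1 : N * e < m) (hm2 : m < (N + 1) * e)
    (hBi : Even ((m : ℤ) - i) ∨ ∃ o, Odd (deg o)) (hBj : Even ((m : ℤ) - j) ∨ ∃ o, Odd (deg o))
    (h : cf deg N m i = cf deg N m j) :
    i = j ∨ ((m : ℤ) - i) + ((m : ℤ) - j) = 2 * (N * e) := by
  have pi := aa_pos deg e hD hsym huni hz N hN m i hi hm1 hm2 hBi
  have pj := aa_pos deg e hD hsym huni hz N hN m j hj hm1 hm2 hBj
  have pi' : (0 : ℚ) < ((aa deg N ((m : ℤ) - i) : ℤ) : ℚ) := by exact_mod_cast pi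
  have pj' : (0 : ℚ) < ((aa deg N ((m : ℤ) - j) : ℤ) : ℚ) := by exact_mod_cast pj
  rw [cf_eq, cf_eq] at h
  have same : (m + i) % 2 = (m + j) % 2 → aa deg N ((m : ℤ) - i) = aa deg N ((m : ℤ) - j) →
      i = j ∨ ((m : ℤ) - i) + ((m : ℤ) - j) = 2 * (N * e) := by
    intro hp ha
    rcases fold_eq deg e hD hsym huni N ((m : ℤ) - i) ((m : ℤ) - j)
      ⟨((i : ℤ) - j) / 2, by omega⟩
      (fold_pos deg e hD hsym huni hz N hN m i hi hm1 hm2 hBi)
      (fold_pos deg e hD hsym huni hz N hN m j hj hm1 hm2 hBj) ha with h1 | h1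
    · left; omega
    · right; exact h1
  rcases Nat.even_or_odd (m + i) with ex | ox <;> rcases Nat.even_or_odd (m + j) with ey | oy
  · rw [ex.neg_one_pow, ey.neg_one_pow, one_mul, one_mul] at h
    exact same (by rw [Nat.even_iff.mp ex, Nat.even_iff.mp ey]) (by exact_mod_cast h)
  · rw [ex.neg_one_pow, oy.neg_one_pow] at h
    linarith
  · rw [ox.neg_one_pow, ey.neg_one_pow] at h
    linarith
  · rw [ox.neg_one_pow, oy.neg_one_pow] at h
    have h2 : ((aa deg N ((m : ℤ) - i) : ℤ) : ℚ) = ((aa deg N ((m : ℤ) - j) : ℤ) : ℚ) := by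
      linarith
    exact same (by rw [Nat.odd_iff.mp ox, Nat.odd_iff.mp oy]) (by exact_mod_cast h2)

end

theorem lower {K : Type} [Field K] [CharZero K] (deg : ι → ℕ) {e : ℕ} (C : Cycles K ι deg e)
    (hD : ∀ a, deg a ≤ 2 * e)
    (hsym : ∀ i, i ≤ 2 * e → betti deg i = betti deg (2 * e - i))
    (huni : ∀ i, i < e → betti deg i ≤ betti deg (i + 2)) {z : ι} (hz : deg z = 0)
    (N m : ℕ) (hN : 3 ≤ N) (hm : m < (N + 1) * e)
    (hpar : (e ≤ m ∧ Even m ∧ ∀ a, Even (deg a)) ∨ ∃ o, Odd (deg o) ∧ e + deg o ≤ m)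
    (hE : (Matrix.diagonal fun a => ((cf deg N m (deg a) : ℚ) : K)) ∈ C.alg) :
    ∀ i, proj K deg i ∈ C.alg := by
  rcases le_or_gt m (N * e) with hmN | hmN
  · have low : ∀ i, i ≤ e → proj K deg i ∈ C.alg := fun i hi =>
      separate deg C.alg (cf deg N m) hE i fun a b ha hab =>
        cf_inj2 deg e hD hsym huni hz N m hN hmN hpar a b (by omega) hab
    intro i
    by_cases hi : i ≤ e
    · exact low i hi
    · by_cases hi2 : i ≤ 2 * e
      · have := C.dual hD (2 * e - i) (by omega) (low _ (by omega))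
        rwa [show 2 * e - (2 * e - i) = i by omega] at this
      · have : proj K deg i = 0 := by
          unfold proj
          rw [← Matrix.diagonal_zero]
          congr 1
          funext a
          rw [if_neg (by have := hD a; omega)]
        rw [this]
        exact C.alg.zero_mem
  · intro i0
    refine separate2 deg C.alg ?_ i0
    rintro i j hij ⟨a, rfl⟩ ⟨b, rfl⟩
    by_contra hc
    push Not at hc
    have h1 := hc (cf deg N m) hE
    have h2 := hc (fun i => cf deg N m (2 * e - i)) (C.transpose _ hE)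
    have hB : ∀ x : ι, (Even ((m : ℤ) - (deg x : ℕ)) ∨ ∃ o, Odd (deg o)) ∧
        (Even ((m : ℤ) - ((2 * e - deg x : ℕ) : ℤ)) ∨ ∃ o, Odd (deg o)) := by
      intro x
      rcases hpar with ⟨-, hm2, hev⟩ | ⟨o, hoo, -⟩
      · have hx := hev x
        have hx2 := hD x
        obtain ⟨u, hu⟩ := hm2
        obtain ⟨v, hv⟩ := hx
        exact ⟨Or.inl ⟨(u : ℤ) - v, by omega⟩, Or.inl ⟨(u : ℤ) - e + v, by omega⟩⟩
      · exact ⟨Or.inr ⟨o, hoo⟩, Or.inr ⟨o, hoo⟩⟩
    have ha := hD a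
    have hb := hD b
    have h3 := cf_pair deg e hD hsym huni hz N hN m (deg a) (deg b) ha hb hmN hm
      (hB a).1 (hB b).1 h1
    have h4 := cf_pair deg e hD hsym huni hz N hN m (2 * e - deg a) (2 * e - deg b)
      (by omega) (by omega) hmN hm (hB a).2 (hB b).2 h2
    have hm' : (m : ℤ) < ((N : ℤ) + 1) * e := by exact_mod_cast hm
    have hr : ((N : ℤ) + 1) * e = N * e + e := by ring
    rcases h3 with h3 | h3
    · exact hij h3
    · rcases h4 with h4 | h4
      · omega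
      · omega

/-- the general case -/
theorem main3 {K : Type} [Field K] [CharZero K] (deg : ι → ℕ) {e : ℕ} (C : Cycles K ι deg e)
    (hD : ∀ a, deg a ≤ 2 * e)
    (hsym : ∀ i, i ≤ 2 * e → betti deg i = betti deg (2 * e - i))
    (huni : ∀ i, i < e → betti deg i ≤ betti deg (i + 2)) {z : ι} (hz : deg z = 0)
    (N m : ℕ) (hN : 3 ≤ N) (hm : m ≠ (N + 1) * e)
    (hpar : (e ≤ m ∧ m + e ≤ 2 * ((N + 1) * e) ∧ Even m ∧ ∀ a, Even (deg a)) ∨
      ∃ o, Odd (deg o) ∧ e + deg o ≤ m ∧ m + (e + deg o) ≤ 2 * ((N + 1) * e))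
    (hk : kunneth K deg (N + 1) m ∈ C.pow (N + 1)) : ∀ i, proj K deg i ∈ C.alg := by
  have h1 := C.contract_mem N _ hk
  rw [contract_kunneth] at h1
  rcases Nat.lt_or_gt_of_ne hm with hlt | hgt
  · refine lower deg C hD hsym huni hz N m hN hlt ?_ h1
    rcases hpar with ⟨h2, -, h3, h4⟩ | ⟨o, h2, h3, -⟩
    · exact Or.inl ⟨h2, h3, h4⟩
    · exact Or.inr ⟨o, h2, h3⟩
  · set m' : ℕ := 2 * ((N + 1) * e) - m with hm'
    have hle : m ≤ 2 * ((N + 1) * e) := by
      rcases hpar with ⟨-, h2, -, -⟩ | ⟨o, -, -, h2⟩ <;> omega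
    have hlt : m' < (N + 1) * e := by omega
    have h2 := C.transpose _ h1
    have heq : (fun a => ((cf deg N m (2 * e - deg a) : ℚ) : K)) =
        fun a => ((cf deg N m' (deg a) : ℚ) : K) := by
      funext a
      have ha := hD a
      have h3 : cf deg N m (2 * e - deg a) = cf deg N m' (deg a) := by
        rw [cf_eq, cf_eq, ← aa_sym deg e hD hsym N ((m : ℤ) - ((2 * e - deg a : ℕ) : ℤ))]
        have h4 : 2 * ((N : ℤ) * e) - ((m : ℤ) - ((2 * e - deg a : ℕ) : ℤ)) =
            (m' : ℤ) - deg a := by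
          have h5 : ((2 * e - deg a : ℕ) : ℤ) = 2 * e - deg a := by omega
          have h6 : (m' : ℤ) = 2 * (((N : ℤ) + 1) * e) - m := by
            rw [hm', Nat.cast_sub hle]
            push_cast
            ring
          rw [h5, h6]
          ring
        rw [h4]
        congr 1
        have h5 : (m + (2 * e - deg a)) % 2 = (m' + deg a) % 2 := by omega
        rw [neg_one_pow_eq_pow_mod_two (n := m + (2 * e - deg a)), h5,
          ← neg_one_pow_eq_pow_mod_two]
      rw [h3]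
    rw [heq] at h2
    refine lower deg C hD hsym huni hz N m' hN hlt ?_ h2
    rcases hpar with ⟨h3, h4, h5, h6⟩ | ⟨o, h3, h4, h5⟩
    · refine Or.inl ⟨by omega, ?_, h6⟩
      rw [hm']
      exact (Nat.even_sub hle).mpr ⟨fun _ => h5, fun _ => even_two_mul _⟩
    · exact Or.inr ⟨o, h3, by omega⟩

end Pool.Agent.P8H28.KC
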